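import Mathlib

namespace Pool.Agent.helper56.Irr

open Finset

/-- `X` is a dominating set of `G`: every vertex outside `X` has a neighbour in `X`. -/
def Dominating {V : Type*} (G : SimpleGraph V) (X : Finset V) : Prop :=
  ∀ v, v ∉ X → ∃ x ∈ X, G.Adj x v

/-- `X` is a minimal dominating set of `G`: it is dominating and no proper subset is. -/
def MinDominating {V : Type*} (G : SimpleGraph V) (X : Finset V) : Prop :=
  Dominating G X ∧ ∀ Y : Finset V, Y ⊂ X → ¬ Dominating G Y

/-- The upper domination number: the largest size of a minimal dominating set. -/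
noncomputable def upperDom {V : Type*} (G : SimpleGraph V) : ℕ :=
  sSup {k | ∃ X : Finset V, MinDominating G X ∧ X.card = k}

/-- The Ramsey number `R_{π,ρ}(m,n)` of two graph parameters: the least `N` such that every graph
`G` on `N` vertices has `π G ≥ m` or `ρ (complement of G) ≥ n`. -/
noncomputable def ramsey (π ρ : (N : ℕ) → SimpleGraph (Fin N) → ℕ) (m n : ℕ) : ℕ :=
  sInf {N | ∀ G : SimpleGraph (Fin N), m ≤ π N G ∨ n ≤ ρ N Gᶜ}

/-- The independence number as a graph parameter. -/
noncomputable def alphaP (N : ℕ) (G : SimpleGraph (Fin N)) : ℕ := G.indepNum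

/-- The upper domination number as a graph parameter. -/
noncomputable def gammaP (N : ℕ) (G : SimpleGraph (Fin N)) : ℕ := upperDom G

/-- The classical Ramsey number `r(m,n)`. -/
noncomputable def r (m n : ℕ) : ℕ := ramsey alphaP alphaP m n

/-- The mixed domination Ramsey number `v(m,n)`. -/
noncomputable def v (m n : ℕ) : ℕ := ramsey gammaP alphaP m n

end Pool.Agent.helper56.Irr
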