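import Pool.Agent.helper56.Irr.Lower2

/-! Asymptotics. -/

namespace Pool.Agent.helper56.Irr

open Finset Filter

lemma r_lower : ∀ᶠ n : ℕ in atTop, (n : ℝ) ^ ((9 : ℝ) / 5) / 200 ≤ r 3 n := by
  have h1 : ∀ᶠ n : ℕ in atTop, Real.log n ≤ (1 / 200) * (n : ℝ) ^ ((1 : ℝ) / 10) := by
    have h := (isLittleO_log_rpow_atTop (show (0 : ℝ) < 1 / 10 by norm_num)).def
      (show (0 : ℝ) < 1 / 200 by norm_num)
    have h' := tendsto_natCast_atTop_atTop (R := ℝ) |>.eventually h
    filter_upwards [h', eventually_ge_atTop 1] with n hn hn1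
    have hn1' : (1 : ℝ) ≤ n := by exact_mod_cast hn1
    rw [Real.norm_of_nonneg (Real.log_nonneg hn1'), Real.norm_of_nonneg (by positivity)] at hn
    exact hn
  have h2 : ∀ᶠ n : ℕ in atTop, (1000 : ℝ) ≤ (n : ℝ) ^ ((1 : ℝ) / 10) := by
    have h := tendsto_rpow_atTop (show (0 : ℝ) < 1 / 10 by norm_num)
    have h' := h.comp (tendsto_natCast_atTop_atTop (R := ℝ))
    exact h'.eventually_ge_atTop 1000
  filter_upwards [h1, h2, eventually_ge_atTop 2] with n hlog hbig hn2
  have hn2' : (2 : ℝ) ≤ n := by exact_mod_cast hn2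
  have hnpos : (0 : ℝ) < n := by linarith
  set s : ℝ := (n : ℝ) ^ ((1 : ℝ) / 10) with hs
  set x : ℝ := (n : ℝ) ^ ((9 : ℝ) / 10) with hx
  have hspos : 0 < s := by positivity
  have hsx : s * x = n := by
    rw [hs, hx, ← Real.rpow_add hnpos]; norm_num
  have hsx9 : x = s ^ 9 := by
    rw [hs, hx, ← Real.rpow_natCast, ← Real.rpow_mul hnpos.le]; norm_num
  have hx1000 : 1000 ≤ x := by
    rw [hsx9]
    calc (1000 : ℝ) ≤ s := hbig
      _ = s ^ 1 := (pow_one s).symm
      _ ≤ s ^ 9 := pow_le_pow_right₀ (by linarith) (by norm_num)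
  have hxx : (n : ℝ) ^ ((9 : ℝ) / 5) = x ^ 2 := by
    rw [hx, ← Real.rpow_natCast, ← Real.rpow_mul hnpos.le]; norm_num
  set q : ℕ := ⌊x⌋₊ with hq
  have hqx : (q : ℝ) ≤ x := Nat.floor_le (by positivity)
  have hxq : x < q + 1 := Nat.lt_floor_add_one x
  have hq1 : 1 ≤ q := by
    have : (1 : ℝ) ≤ q := by linarith
    exact_mod_cast this
  obtain ⟨p, hp⟩ : ∃ p, q = p + 1 := ⟨q - 1, by omega⟩
  set C : ℕ := n.choose 2 with hC
  have hCr : (C : ℝ) = n * (n - 1) / 2 := by rw [hC, Nat.cast_choose_two]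
  have hC4 : (n : ℝ) ^ 2 / 4 ≤ C := by rw [hCr]; nlinarith
  set k : ℕ := C / (12 * q) with hk
  have hqpos : (0 : ℝ) < q := by exact_mod_cast hq1
  have hkup : 12 * q * k ≤ C := Nat.mul_div_le C (12 * q)
  have hklow : C < 12 * q * (k + 1) := by
    rw [hk]
    exact Nat.lt_mul_div_succ C (by positivity)
  have hklow' : (C : ℝ) < 12 * q * (k + 1) := by exact_mod_cast hklow
  -- `k ≥ n s / 48 - 1`
  have hkbig : (n : ℝ) * s / 48 - 1 < k := by
    have h3 : (C : ℝ) < 12 * x * (k + 1) := by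
      calc (C : ℝ) < 12 * q * (k + 1) := hklow'
        _ ≤ 12 * x * (k + 1) := by
          apply mul_le_mul_of_nonneg_right _ (by positivity)
          linarith
    have h4 : (n : ℝ) ^ 2 / 4 < 12 * x * (k + 1) := by linarith
    have h5 : (n : ℝ) * s * x = n ^ 2 := by rw [mul_assoc, hsx]; ring
    have h6 : ((n : ℝ) * s / 48) * x < (k + 1) * x := by nlinarith
    have h7 := lt_of_mul_lt_mul_right h6 (by linarith)
    linarith
  have hlog' : 96 * Real.log n ≤ s / 2 - s / 50 := by linarith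
  have hkbig2 : 2 * n * Real.log n + 1 < k := by
    have h3 : (n : ℝ) * (96 * Real.log n) ≤ n * (s / 2 - s / 50) :=
      mul_le_mul_of_nonneg_left hlog' hnpos.le
    nlinarith
  have hk12 : 12 ≤ k := by
    have h3 : (12 : ℝ) ≤ k := by nlinarith
    exact_mod_cast h3
  set N : ℕ := q ^ 2 / 100 with hN
  have hN100 : 100 * N ≤ q ^ 2 := Nat.mul_div_le _ _
  have hNlow : q ^ 2 < 100 * (N + 1) := Nat.lt_mul_div_succ _ (by norm_num)
  have hNlow' : (q : ℝ) ^ 2 < 100 * (N + 1) := by exact_mod_cast hNlow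
  have hNn : (N : ℝ) ≤ (n : ℝ) ^ 2 := by
    have h3 : (100 : ℝ) * N ≤ q ^ 2 := by exact_mod_cast hN100
    have h4 : (q : ℝ) ≤ n := by
      have h5 : x ≤ n := by
        rw [← hsx]
        nlinarith
      linarith
    nlinarith
  have h4 : (N : ℝ) ^ n * (2 * Real.exp (-(k : ℝ))) < 1 := by
    have h5 : (N : ℝ) ^ n ≤ Real.exp (2 * n * Real.log n) := by
      have h6 : Real.exp (2 * n * Real.log n) = ((n : ℝ) ^ 2) ^ n := by
        rw [show (2 * (n : ℝ) * Real.log n) = n * (2 * Real.log n) by ring, Real.exp_nat_mul]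
        congr 1
        rw [show (2 : ℝ) * Real.log n = ((2 : ℕ) : ℝ) * Real.log n by norm_num,
          Real.exp_nat_mul, Real.exp_log hnpos]
      rw [h6]
      exact pow_le_pow_left₀ (by positivity) hNn _
    have h7 : (2 : ℝ) < Real.exp 1 := by linarith [Real.exp_one_gt_d9]
    calc (N : ℝ) ^ n * (2 * Real.exp (-(k : ℝ)))
        ≤ Real.exp (2 * n * Real.log n) * (2 * Real.exp (-(k : ℝ))) :=
          mul_le_mul_of_nonneg_right h5 (by positivity)
      _ < Real.exp (2 * n * Real.log n) * (Real.exp 1 * Real.exp (-(k : ℝ))) := by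
          apply mul_lt_mul_of_pos_left _ (Real.exp_pos _)
          exact mul_lt_mul_of_pos_right h7 (Real.exp_pos _)
      _ = Real.exp (2 * n * Real.log n + 1 - k) := by
          rw [← Real.exp_add, ← Real.exp_add]; congr 1; ring
      _ ≤ 1 := by
          rw [Real.exp_le_one_iff]
          linarith
  obtain ⟨F, hF1, hF2⟩ := exists_graph N n p k (by rw [← hp]; exact hkup)
    (by
      rw [← hp]
      calc n.choose 2 ≤ 12 * q * (k + 1) := hklow.le
        _ = 12 * q * k + 12 * q := by ring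
        _ ≤ 12 * q * k + q * k := by
            have : q * 12 ≤ q * k := Nat.mul_le_mul_left q hk12
            omega
        _ = 13 * q * k := by ring)
    (by rw [← hp]; exact hN100) h4
  have h8 := lt_r F hF1 hF2
  have h9 : ((N : ℝ) + 1) ≤ r 3 n := by exact_mod_cast h8
  rw [hxx]
  nlinarith

theorem main_limit : Tendsto (fun n : ℕ => (v 3 n : ℝ) / (r 3 n : ℝ)) atTop (nhds 0) := by
  have h1 : Tendsto (fun n : ℕ => (1200 : ℝ) * (n : ℝ) ^ (-((2 : ℝ) / 15))) atTop (nhds 0) := by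
    have h := (tendsto_rpow_neg_atTop (show (0 : ℝ) < 2 / 15 by norm_num)).comp
      (tendsto_natCast_atTop_atTop (R := ℝ))
    have h' := h.const_mul 1200
    rw [mul_zero] at h'
    exact h'
  refine squeeze_zero' (Eventually.of_forall (fun n => by positivity)) ?_ h1
  filter_upwards [r_lower, eventually_ge_atTop 1] with n hn hn1
  have hn1' : (1 : ℝ) ≤ n := by exact_mod_cast hn1
  have hnpos : (0 : ℝ) < n := by linarith
  have hv := v_le (m := 3) (n := n) le_rfl hn1
  have hr : (0 : ℝ) < r 3 n := lt_of_lt_of_le (by positivity) hn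
  rw [div_le_iff₀ hr]
  calc (v 3 n : ℝ) ≤ 6 * (n : ℝ) ^ (((3 : ℕ) : ℝ) - 4 / 3) := hv
    _ = 1200 * (n : ℝ) ^ (-((2 : ℝ) / 15)) * ((n : ℝ) ^ ((9 : ℝ) / 5) / 200) := by
        have h2 : (n : ℝ) ^ (((3 : ℕ) : ℝ) - 4 / 3)
            = (n : ℝ) ^ (-((2 : ℝ) / 15)) * (n : ℝ) ^ ((9 : ℝ) / 5) := by
          rw [← Real.rpow_add hnpos]; norm_num
        rw [h2]; ring
    _ ≤ _ := mul_le_mul_of_nonneg_left hn (by positivity)

end Pool.Agent.helper56.Irr
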