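import Pool.Agent.helper56.Irr.Final

namespace Pool.Agent.Results.MP_d3024b_co.LimitVR3

open Filter Pool.Agent.helper56.Irr

/-- For `m = 3` the limit is `0` for the pair `(v, r)`: mixed domination Ramsey numbers
`v(3,n)` versus classical Ramsey numbers `r(3,n)`. -/
theorem result :
    Tendsto (fun n : ℕ => (v 3 n : ℝ) / (r 3 n : ℝ)) atTop (nhds 0) :=
  main_limit

end Pool.Agent.Results.MP_d3024b_co.LimitVR3
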