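import Mathlib

/-! Lower bound for `r(3,n)` : a random graph minus a maximal family of edge-disjoint triangles
(first moment / counting version of the argument of Erdős and Krivelevich). -/

namespace Pool.Agent.helper56.Irr

open Finset

section Counting

variable {E : Type*} [Fintype E] [DecidableEq E] (p : ℕ)

/-- the number of functions vanishing on `B` -/
lemma count_zero (B : Finset E) :
    ((univ : Finset (E → Fin (p + 1))).filter (fun f => ∀ e ∈ B, f e = 0)).card
      * (p + 1) ^ B.card = (p + 1) ^ Fintype.card E := by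
  have h1 : (univ : Finset (E → Fin (p + 1))).filter (fun f => ∀ e ∈ B, f e = 0)
      = Fintype.piFinset (fun e => if e ∈ B then ({0} : Finset (Fin (p + 1))) else univ) := by
    ext f
    simp only [mem_filter, mem_univ, true_and, Fintype.mem_piFinset]
    constructor
    · intro h e
      by_cases he : e ∈ B
      · simp [he, h e he]
      · simp [he]
    · intro h e he
      have := h e
      simpa [he] using this
  rw [h1, Fintype.card_piFinset]
  have h2 : ∀ e : E, (if e ∈ B then ({0} : Finset (Fin (p + 1))) else univ).card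
      = if e ∈ B then 1 else (p + 1) := by
    intro e
    split_ifs <;> simp
  simp only [h2]
  rw [Finset.prod_ite]
  simp only [Finset.prod_const_one, one_mul, Finset.prod_const]
  rw [← pow_add]
  congr 1
  have h3 : (univ.filter (fun e => e ∈ B)) = B := by ext; simp
  have h4 := Finset.card_filter_add_card_filter_not (s := (univ : Finset E)) (fun e => e ∈ B)
  rw [h3] at h4
  rw [← Finset.card_univ (α := E)]
  omega

lemma sum_weight (B : Finset E) :
    ∑ f : E → Fin (p + 1), ((1 : ℝ) / 2) ^ (B.filter (fun e => f e = 0)).card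
      = ((p : ℝ) + 1) ^ (Fintype.card E - B.card) * ((p : ℝ) + 1 / 2) ^ B.card := by
  classical
  have h1 : ∀ f : E → Fin (p + 1), ((1 : ℝ) / 2) ^ (B.filter (fun e => f e = 0)).card
      = ∏ e : E, (if e ∈ B ∧ f e = 0 then (1 : ℝ) / 2 else 1) := by
    intro f
    rw [Finset.prod_ite, Finset.prod_const_one, mul_one, Finset.prod_const]
    congr 2
    ext e
    simp
  simp only [h1]
  have h2 := Finset.prod_univ_sum (fun _ : E => (univ : Finset (Fin (p + 1))))
    (fun e j => if e ∈ B ∧ j = 0 then (1 : ℝ) / 2 else 1)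
  rw [Fintype.piFinset_univ] at h2
  rw [← h2]
  have h3 : ∀ e : E, ∑ j : Fin (p + 1), (if e ∈ B ∧ j = 0 then (1 : ℝ) / 2 else 1)
      = if e ∈ B then ((p : ℝ) + 1 / 2) else ((p : ℝ) + 1) := by
    intro e
    by_cases he : e ∈ B
    · simp only [he, true_and, if_true]
      rw [Fin.sum_univ_succ]
      simp [Fin.succ_ne_zero]
      ring
    · simp [he]
  simp only [h3]
  rw [Finset.prod_ite]
  simp only [Finset.prod_const]
  rw [mul_comm]
  have h4 : (univ.filter (fun e => e ∈ B)) = B := by ext; simp
  have h5 := Finset.card_filter_add_card_filter_not (s := (univ : Finset E)) (fun e => e ∈ B)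
  rw [h4] at h5 ⊢
  congr 2
  rw [← Finset.card_univ (α := E)]
  omega

lemma count_few (B : Finset E) (j : ℕ) :
    (((univ : Finset (E → Fin (p + 1))).filter
      (fun f => (B.filter (fun e => f e = 0)).card ≤ j)).card : ℝ)
      ≤ 2 ^ j * ((p : ℝ) + 1) ^ Fintype.card E * Real.exp (-(B.card / (2 * ((p : ℝ) + 1)))) := by
  have h1 := sum_weight p B
  have hB : B.card ≤ Fintype.card E := Finset.card_le_univ B
  have h2 : (((univ : Finset (E → Fin (p + 1))).filter
      (fun f => (B.filter (fun e => f e = 0)).card ≤ j)).card : ℝ) * (1 / 2) ^ j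
      ≤ ∑ f : E → Fin (p + 1), ((1 : ℝ) / 2) ^ (B.filter (fun e => f e = 0)).card := by
    calc _ = ∑ f ∈ (univ : Finset (E → Fin (p + 1))).filter
          (fun f => (B.filter (fun e => f e = 0)).card ≤ j), ((1 : ℝ) / 2) ^ j := by
          rw [Finset.sum_const, nsmul_eq_mul]
      _ ≤ ∑ f ∈ (univ : Finset (E → Fin (p + 1))).filter
          (fun f => (B.filter (fun e => f e = 0)).card ≤ j),
          ((1 : ℝ) / 2) ^ (B.filter (fun e => f e = 0)).card := by
          apply Finset.sum_le_sum
          intro f hf
          rw [mem_filter] at hf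
          exact pow_le_pow_of_le_one (by norm_num) (by norm_num) hf.2
      _ ≤ _ := by
          apply Finset.sum_le_sum_of_subset_of_nonneg (Finset.filter_subset _ _)
          intro f _ _
          positivity
  rw [h1] at h2
  have h3 : ((p : ℝ) + 1 / 2) ≤ ((p : ℝ) + 1) * Real.exp (-(1 / (2 * ((p : ℝ) + 1)))) := by
    have h4 := Real.add_one_le_exp (-(1 / (2 * ((p : ℝ) + 1))))
    have h5 : ((p : ℝ) + 1 / 2) = ((p : ℝ) + 1) * (-(1 / (2 * ((p : ℝ) + 1))) + 1) := by
      field_simp
      ring
    rw [h5]
    exact mul_le_mul_of_nonneg_left h4 (by positivity)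
  have h6 : ((p : ℝ) + 1 / 2) ^ B.card
      ≤ ((p : ℝ) + 1) ^ B.card * Real.exp (-(B.card / (2 * ((p : ℝ) + 1)))) := by
    calc _ ≤ (((p : ℝ) + 1) * Real.exp (-(1 / (2 * ((p : ℝ) + 1))))) ^ B.card :=
          pow_le_pow_left₀ (by positivity) h3 _
      _ = _ := by
          rw [mul_pow, ← Real.exp_nat_mul]
          congr 2
          ring
  have h7 : ((p : ℝ) + 1) ^ (Fintype.card E - B.card) * ((p : ℝ) + 1 / 2) ^ B.card
      ≤ ((p : ℝ) + 1) ^ Fintype.card E * Real.exp (-(B.card / (2 * ((p : ℝ) + 1)))) := by
    calc _ ≤ ((p : ℝ) + 1) ^ (Fintype.card E - B.card) *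
          (((p : ℝ) + 1) ^ B.card * Real.exp (-(B.card / (2 * ((p : ℝ) + 1))))) :=
          mul_le_mul_of_nonneg_left h6 (by positivity)
      _ = _ := by
          rw [← mul_assoc, ← pow_add, Nat.sub_add_cancel hB]
  have h8 := h2.trans h7
  have h9 : ((1 : ℝ) / 2) ^ j * 2 ^ j = 1 := by
    rw [← mul_pow]; norm_num
  calc _ = (((univ : Finset (E → Fin (p + 1))).filter
      (fun f => (B.filter (fun e => f e = 0)).card ≤ j)).card : ℝ) * (1 / 2) ^ j * 2 ^ j := by
        rw [mul_assoc, h9, mul_one]
    _ ≤ ((p : ℝ) + 1) ^ Fintype.card E * Real.exp (-(B.card / (2 * ((p : ℝ) + 1)))) * 2 ^ j :=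
        mul_le_mul_of_nonneg_right h8 (by positivity)
    _ = _ := by ring

end Counting

section Graph

variable {N : ℕ}

/-- the pairs inside `S` -/
def ed (S : Finset (Fin N)) : Finset (Sym2 (Fin N)) := S.offDiag.image (fun x => s(x.1, x.2))

lemma mem_ed {S : Finset (Fin N)} {a b : Fin N} :
    s(a, b) ∈ ed S ↔ a ∈ S ∧ b ∈ S ∧ a ≠ b := by
  simp only [ed, mem_image, mem_offDiag, Prod.exists, Sym2.eq_iff]
  constructor
  · rintro ⟨c, d, ⟨h1, h2, h3⟩, h | h⟩
    · rw [← h.1, ← h.2]; exact ⟨h1, h2, h3⟩
    · rw [← h.1, ← h.2]; exact ⟨h2, h1, h3.symm⟩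
  · rintro ⟨h1, h2, h3⟩
    exact ⟨a, b, ⟨h1, h2, h3⟩, Or.inl ⟨rfl, rfl⟩⟩

lemma card_ed (S : Finset (Fin N)) : (ed S).card = S.card.choose 2 :=
  Sym2.card_image_offDiag S

/-- `M` is a family of pairwise edge-disjoint triangles of the graph of zeros of `f`. -/
def Good {p : ℕ} (f : Sym2 (Fin N) → Fin (p + 1)) (M : Finset (Finset (Fin N))) : Prop :=
  (∀ t ∈ M, t.card = 3 ∧ ∀ e ∈ ed t, f e = 0) ∧
    (∀ t ∈ M, ∀ t' ∈ M, t ≠ t' → Disjoint (ed t) (ed t'))

lemma Good.mono {p : ℕ} {f : Sym2 (Fin N) → Fin (p + 1)} {M M' : Finset (Finset (Fin N))}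
    (h : Good f M) (hM : M' ⊆ M) : Good f M' :=
  ⟨fun t ht => h.1 t (hM ht), fun t ht t' ht' => h.2 t (hM ht) t' (hM ht')⟩

/-- triangles with an edge in `S` -/
noncomputable def tri (S : Finset (Fin N)) : Finset (Finset (Fin N)) :=
  (univ : Finset (Finset (Fin N))).filter (fun t => t.card = 3 ∧ ¬ Disjoint (ed t) (ed S))

lemma card_tri (S : Finset (Fin N)) : (tri S).card ≤ S.card.choose 2 * N := by
  rw [← card_ed]
  calc (tri S).card ≤ ((ed S ×ˢ (univ : Finset (Fin N))).image
        (fun x => insert x.2 x.1.toFinset)).card := by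
        apply Finset.card_le_card
        intro t ht
        simp only [tri, mem_filter, mem_univ, true_and] at ht
        obtain ⟨h3, hnd⟩ := ht
        rw [Finset.not_disjoint_iff] at hnd
        obtain ⟨e, he, he'⟩ := hnd
        induction e using Sym2.ind with
        | _ a b =>
          obtain ⟨ha, hb, hab⟩ := mem_ed.1 he
          have h4 : ({a, b} : Finset (Fin N)).card = 2 := Finset.card_pair hab
          have h5 : ({a, b} : Finset (Fin N)) ⊆ t := by
            intro x hx
            simp only [mem_insert, mem_singleton] at hx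
            rcases hx with rfl | rfl <;> assumption
          obtain ⟨c, hc, hc'⟩ : ∃ c ∈ t, c ∉ ({a, b} : Finset (Fin N)) := by
            by_contra hcon
            push Not at hcon
            have := Finset.card_le_card (show t ⊆ {a, b} from hcon)
            omega
          rw [mem_image]
          refine ⟨(s(a, b), c), by simp [he'], ?_⟩
          simp only [Sym2.toFinset_mk_eq]
          apply Finset.eq_of_subset_of_card_le
          · intro x hx
            rw [mem_insert] at hx
            rcases hx with rfl | hx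
            · exact hc
            · exact h5 hx
          · rw [Finset.card_insert_of_notMem hc', h4, h3]
    _ ≤ (ed S ×ˢ (univ : Finset (Fin N))).card := Finset.card_image_le
    _ = _ := by simp

open Classical in
/-- the event that there are `k` edge-disjoint triangles meeting `S` in an edge -/
lemma count_triangles (p k : ℕ) (S : Finset (Fin N)) :
    (((univ : Finset (Sym2 (Fin N) → Fin (p + 1))).filter
      (fun f => ∃ M ⊆ tri S, M.card = k ∧ Good f M)).card : ℝ) * ((p : ℝ) + 1) ^ (3 * k)
      ≤ ((tri S).card.choose k : ℝ) * ((p : ℝ) + 1) ^ Fintype.card (Sym2 (Fin N)) := by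
  have h1 : (univ : Finset (Sym2 (Fin N) → Fin (p + 1))).filter
      (fun f => ∃ M ⊆ tri S, M.card = k ∧ Good f M)
      ⊆ ((powersetCard k (tri S)).biUnion (fun M =>
        (univ : Finset (Sym2 (Fin N) → Fin (p + 1))).filter (fun f => Good f M))) := by
    intro f hf
    rw [mem_filter] at hf
    obtain ⟨-, M, hM, hk, hg⟩ := hf
    rw [mem_biUnion]
    exact ⟨M, mem_powersetCard.2 ⟨hM, hk⟩, mem_filter.2 ⟨mem_univ _, hg⟩⟩
  have h2 : ∀ M ∈ powersetCard k (tri S),
      (((univ : Finset (Sym2 (Fin N) → Fin (p + 1))).filter (fun f => Good f M)).card : ℝ)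
        * ((p : ℝ) + 1) ^ (3 * k) ≤ ((p : ℝ) + 1) ^ Fintype.card (Sym2 (Fin N)) := by
    intro M hM
    rw [mem_powersetCard] at hM
    by_cases hd : ∀ t ∈ M, ∀ t' ∈ M, t ≠ t' → Disjoint (ed t) (ed t')
    · have h3 : (M.biUnion ed).card = 3 * k := by
        rw [Finset.card_biUnion hd]
        rw [Finset.sum_congr rfl (fun t ht => ?_)]
        · rw [Finset.sum_const, smul_eq_mul, hM.2, mul_comm]
        · have h4 := hM.1 ht
          simp only [tri, mem_filter, mem_univ, true_and] at h4
          rw [card_ed, h4.1]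
          rfl
      have h5 := count_zero p (M.biUnion ed)
      rw [h3] at h5
      have h6 : ((univ : Finset (Sym2 (Fin N) → Fin (p + 1))).filter (fun f => Good f M)).card
          ≤ ((univ : Finset (Sym2 (Fin N) → Fin (p + 1))).filter
            (fun f => ∀ e ∈ M.biUnion ed, f e = 0)).card := by
        apply Finset.card_le_card
        intro f hf
        rw [mem_filter] at hf ⊢
        refine ⟨mem_univ _, fun e he => ?_⟩
        rw [mem_biUnion] at he
        obtain ⟨t, ht, he⟩ := he
        exact (hf.2.1 t ht).2 e he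
      have h7 : ((univ : Finset (Sym2 (Fin N) → Fin (p + 1))).filter (fun f => Good f M)).card
          * (p + 1) ^ (3 * k) ≤ (p + 1) ^ Fintype.card (Sym2 (Fin N)) := by
        rw [← h5]
        exact Nat.mul_le_mul_right _ h6
      exact_mod_cast h7
    · have h8 : (univ : Finset (Sym2 (Fin N) → Fin (p + 1))).filter (fun f => Good f M) = ∅ := by
        apply Finset.filter_eq_empty_iff.2
        intro f _ hg
        exact hd hg.2
      rw [h8]
      simp
      positivity
  calc _ ≤ (((powersetCard k (tri S)).biUnion (fun M =>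
        (univ : Finset (Sym2 (Fin N) → Fin (p + 1))).filter (fun f => Good f M))).card : ℝ)
          * ((p : ℝ) + 1) ^ (3 * k) := by
        apply mul_le_mul_of_nonneg_right _ (by positivity)
        exact_mod_cast Finset.card_le_card h1
    _ ≤ (∑ M ∈ powersetCard k (tri S),
        (((univ : Finset (Sym2 (Fin N) → Fin (p + 1))).filter (fun f => Good f M)).card : ℝ))
          * ((p : ℝ) + 1) ^ (3 * k) := by
        apply mul_le_mul_of_nonneg_right _ (by positivity)
        exact_mod_cast Finset.card_biUnion_le
    _ ≤ ∑ M ∈ powersetCard k (tri S), ((p : ℝ) + 1) ^ Fintype.card (Sym2 (Fin N)) := by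
        rw [Finset.sum_mul]
        exact Finset.sum_le_sum h2
    _ = _ := by rw [Finset.sum_const, nsmul_eq_mul, Finset.card_powersetCard]

open Classical in
/-- The deterministic part: a good choice of `f` gives a triangle-free graph without independent
sets of size `n`. -/
lemma graph_of_good {p n k : ℕ} (f : Sym2 (Fin N) → Fin (p + 1))
    (h1 : ∀ S : Finset (Fin N), S.card = n → 3 * k < ((ed S).filter (fun e => f e = 0)).card)
    (h2 : ∀ S : Finset (Fin N), S.card = n → ¬ ∃ M ⊆ tri S, M.card = k ∧ Good f M) :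
    ∃ F : SimpleGraph (Fin N), (∀ a b c, F.Adj a b → F.Adj b c → F.Adj a c → False) ∧
      ∀ S : Finset (Fin N), S.card = n → ¬ F.IsIndepSet (S : Set (Fin N)) := by
  obtain ⟨M, hM, hmax⟩ := Finset.exists_max_image
    ((univ : Finset (Finset (Finset (Fin N)))).filter (fun M => Good f M)) Finset.card
    ⟨∅, mem_filter.2 ⟨mem_univ _, by constructor <;> simp⟩⟩
  simp only [mem_filter, mem_univ, true_and] at hM hmax
  refine ⟨⟨fun a b => a ≠ b ∧ f s(a, b) = 0 ∧ ∀ t ∈ M, s(a, b) ∉ ed t, ?_, ?_⟩, ?_, ?_⟩
  · refine ⟨fun a b h => ?_⟩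
    rw [Sym2.eq_swap] at h
    exact ⟨h.1.symm, h.2⟩
  · exact ⟨fun a h => h.1 rfl⟩
  · intro a b c hab hbc hac
    dsimp only at hab hbc hac
    set t : Finset (Fin N) := {a, b, c} with ht
    have hcard : t.card = 3 := by
      rw [ht, Finset.card_eq_three]
      exact ⟨a, b, c, hab.1, hac.1, hbc.1, rfl⟩
    have hedge : ∀ e ∈ ed t, f e = 0 ∧ ∀ t' ∈ M, e ∉ ed t' := by
      intro e he
      induction e using Sym2.ind with
      | _ x y =>
        obtain ⟨hx, hy, hxy⟩ := mem_ed.1 he
        rw [ht] at hx hy
        simp only [mem_insert, mem_singleton] at hx hy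
        rcases hx with rfl | rfl | rfl <;> rcases hy with rfl | rfl | rfl <;>
          first
            | exact absurd rfl hxy
            | exact hab.2
            | exact hbc.2
            | exact hac.2
            | (rw [Sym2.eq_swap]; exact hab.2)
            | (rw [Sym2.eq_swap]; exact hbc.2)
            | (rw [Sym2.eq_swap]; exact hac.2)
    have hdis : ∀ t' ∈ M, Disjoint (ed t) (ed t') := by
      intro t' ht'
      rw [Finset.disjoint_left]
      intro e he
      exact (hedge e he).2 t' ht'
    have hab' : s(a, b) ∈ ed t := mem_ed.2 ⟨by simp [ht], by simp [ht], hab.1⟩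
    have htM : t ∉ M := by
      intro h
      exact (hedge _ hab').2 t h hab'
    have hnew : Good f (insert t M) := by
      refine ⟨?_, ?_⟩
      · intro t' ht'
        rw [mem_insert] at ht'
        rcases ht' with rfl | ht'
        · exact ⟨hcard, fun e he => (hedge e he).1⟩
        · exact hM.1 t' ht'
      · intro u hu u' hu' hne
        rw [mem_insert] at hu hu'
        rcases hu with rfl | hu
        · rcases hu' with rfl | hu'
          · exact absurd rfl hne
          · exact hdis u' hu'
        · rcases hu' with rfl | hu'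
          · exact (hdis u hu).symm
          · exact hM.2 u hu u' hu' hne
    have := hmax _ hnew
    rw [Finset.card_insert_of_notMem htM] at this
    omega
  · intro S hS hind
    set MS := M.filter (fun t => ¬ Disjoint (ed t) (ed S)) with hMS
    have hsub : (ed S).filter (fun e => f e = 0) ⊆ MS.biUnion ed := by
      intro e he
      rw [mem_filter] at he
      obtain ⟨he, hfe⟩ := he
      induction e using Sym2.ind with
      | _ x y =>
        obtain ⟨hx, hy, hxy⟩ := mem_ed.1 he
        have h3 := hind (mem_coe.2 hx) (mem_coe.2 hy) hxy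
        simp only [not_and, not_forall, not_not] at h3
        obtain ⟨t, ht, het⟩ := h3 hxy hfe
        rw [mem_biUnion]
        refine ⟨t, ?_, het⟩
        rw [hMS, mem_filter]
        refine ⟨ht, ?_⟩
        rw [Finset.not_disjoint_iff]
        exact ⟨_, het, he⟩
    have h3 : ((ed S).filter (fun e => f e = 0)).card ≤ 3 * MS.card := by
      calc _ ≤ (MS.biUnion ed).card := Finset.card_le_card hsub
        _ ≤ ∑ t ∈ MS, (ed t).card := Finset.card_biUnion_le
        _ = ∑ t ∈ MS, 3 := by
            apply Finset.sum_congr rfl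
            intro t ht
            rw [hMS, mem_filter] at ht
            rw [card_ed, (hM.1 t ht.1).1]
            rfl
        _ = _ := by rw [Finset.sum_const, smul_eq_mul, mul_comm]
    have h4 := h1 S hS
    have h5 : k ≤ MS.card := by omega
    obtain ⟨M', hM', hk⟩ := Finset.exists_subset_card_eq h5
    apply h2 S hS
    refine ⟨M', ?_, hk, hM.mono (hM'.trans (Finset.filter_subset _ _))⟩
    intro t ht
    have h6 := hM' ht
    rw [hMS, mem_filter] at h6
    simp only [tri, mem_filter, mem_univ, true_and]
    exact ⟨(hM.1 t h6.1).1, h6.2⟩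

end Graph

end Pool.Agent.helper56.Irr
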