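import Pool.Agent.helper56.Irr.Upper2

/-! `v(m,n) ≤ 6 n^(m-4/3)`. -/

namespace Pool.Agent.helper56.Irr

open Finset

lemma card_le_general (m : ℕ) (hm : 3 ≤ m) : ∀ (V : Type) [Fintype V] [DecidableEq V]
    (F : SimpleGraph V) (n : ℕ), 1 ≤ n → Failing F m n →
      (Fintype.card V : ℝ) ≤ 5 * (n : ℝ) ^ ((m : ℝ) - 4 / 3) := by
  induction m, hm using Nat.le_induction with
  | base =>
    intro V _ _ F n hn hF
    have hn' : (1 : ℝ) ≤ n := by exact_mod_cast hn
    have h1 := card_le_three (b := (n : ℝ) ^ ((1 : ℝ) / 3)) (a := n) hF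
      (Real.one_le_rpow hn' (by norm_num))
      (by rw [← Real.rpow_natCast, ← Real.rpow_mul (by positivity)]; norm_num)
      (fun S hS => by exact_mod_cast (hF.2 S hS).le)
    refine h1.trans (le_of_eq ?_)
    rw [← Real.rpow_natCast, ← Real.rpow_mul (by positivity)]
    norm_num
  | succ m hm ih =>
    intro V _ _ F n hn hF
    have hn' : (1 : ℝ) ≤ n := by exact_mod_cast hn
    set y : ℝ := (n : ℝ) ^ ((m : ℝ) - 4 / 3) with hy
    have hm' : (3 : ℝ) ≤ m := by exact_mod_cast hm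
    have hy1 : (n : ℝ) ≤ y := by
      rw [hy]
      calc (n : ℝ) = (n : ℝ) ^ (1 : ℝ) := by rw [Real.rpow_one]
        _ ≤ _ := Real.rpow_le_rpow_of_exponent_le hn' (by linarith)
    have hdeg : ∀ x : V, ((nb F x).card : ℝ) ≤ 5 * y := by
      intro x
      have h1 := ih (nb F x : Set V) (F.induce (nb F x : Set V)) n hn (failing_induce hF x)
      simpa using h1
    have hcw := caro_wei (F := F) (a := (n : ℝ) - 1) (fun S hS => by
      have h1 := hF.2 S hS
      have h2 : (S.card : ℝ) + 1 ≤ n := by exact_mod_cast h1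
      linarith)
    have h2 : ∑ _v : V, (1 : ℝ) / (1 + 5 * y) ≤ ∑ v : V, (1 : ℝ) / (1 + (nb F v).card) := by
      apply Finset.sum_le_sum
      intro v _
      apply div_le_div_of_nonneg_left zero_le_one (by positivity)
      linarith [hdeg v]
    rw [Finset.sum_const, nsmul_eq_mul, Finset.card_univ] at h2
    have h3 : (Fintype.card V : ℝ) ≤ ((n : ℝ) - 1) * (1 + 5 * y) := by
      have h4 : (Fintype.card V : ℝ) * (1 / (1 + 5 * y)) ≤ (n : ℝ) - 1 := h2.trans hcw
      rwa [mul_one_div, div_le_iff₀ (by positivity)] at h4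
    have h5 : (n : ℝ) ^ (((m + 1 : ℕ) : ℝ) - 4 / 3) = n * y := by
      rw [hy]
      have : (((m + 1 : ℕ) : ℝ) - 4 / 3) = 1 + ((m : ℝ) - 4 / 3) := by push_cast; ring
      rw [this, Real.rpow_add (by linarith), Real.rpow_one]
    rw [h5]
    nlinarith

lemma minDominating_le_upperDom {N : ℕ} {G : SimpleGraph (Fin N)} {X : Finset (Fin N)}
    (hX : MinDominating G X) : X.card ≤ upperDom G := by
  apply le_csSup
  · refine ⟨N, ?_⟩
    rintro k ⟨Y, _, rfl⟩
    simpa using Finset.card_le_univ Y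
  · exact ⟨X, hX, rfl⟩

lemma failing_of_not {m n N : ℕ} {G : SimpleGraph (Fin N)}
    (h : ¬ (m ≤ gammaP N G ∨ n ≤ alphaP N Gᶜ)) : Failing Gᶜ m n := by
  rw [not_or, not_le, not_le] at h
  refine ⟨?_, ?_⟩
  · intro X hX
    rw [compl_compl] at hX
    exact lt_of_le_of_lt (minDominating_le_upperDom hX) h.1
  · intro S hS
    exact lt_of_le_of_lt hS.card_le_indepNum h.2

/-- `v(m,n) ≤ 6 n^(m-4/3)` -/
theorem v_le {m n : ℕ} (hm : 3 ≤ m) (hn : 1 ≤ n) :
    (v m n : ℝ) ≤ 6 * (n : ℝ) ^ ((m : ℝ) - 4 / 3) := by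
  have hn' : (1 : ℝ) ≤ n := by exact_mod_cast hn
  have hm' : (3 : ℝ) ≤ m := by exact_mod_cast hm
  set z : ℝ := (n : ℝ) ^ ((m : ℝ) - 4 / 3) with hz
  have hz1 : 1 ≤ z := Real.one_le_rpow hn' (by linarith)
  have h1 : v m n ≤ ⌊5 * z⌋₊ + 1 := by
    apply Nat.sInf_le
    intro G
    by_contra hcon
    have h2 := card_le_general m hm (Fin (⌊5 * z⌋₊ + 1)) Gᶜ n hn (failing_of_not hcon)
    rw [Fintype.card_fin, ← hz] at h2
    push_cast at h2
    have := Nat.lt_floor_add_one (5 * z)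
    linarith
  have h3 : (v m n : ℝ) ≤ ⌊5 * z⌋₊ + 1 := by exact_mod_cast h1
  have h4 := Nat.floor_le (a := 5 * z) (by positivity)
  linarith

end Pool.Agent.helper56.Irr
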