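import Pool.Agent.helper56.Irr.Lower
import Pool.Agent.helper56.Irr.Upper3

/-! `r(3,n) ≥ n^(9/5)/200` for large `n`. -/

namespace Pool.Agent.helper56.Irr

open Finset Filter

lemma exists_graph (N n p k : ℕ) (h1 : 12 * (p + 1) * k ≤ n.choose 2)
    (h2 : n.choose 2 ≤ 13 * (p + 1) * k) (h3 : 100 * N ≤ (p + 1) ^ 2)
    (h4 : (N : ℝ) ^ n * (2 * Real.exp (-(k : ℝ))) < 1) :
    ∃ F : SimpleGraph (Fin N), (∀ a b c, F.Adj a b → F.Adj b c → F.Adj a c → False) ∧
      ∀ S : Finset (Fin N), S.card = n → ¬ F.IsIndepSet (S : Set (Fin N)) := by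
  classical
  set E := Sym2 (Fin N)
  set Q : ℝ := ((p : ℝ) + 1) ^ Fintype.card E with hQ
  have hQpos : 0 < Q := by positivity
  set A : Finset (Fin N) → Finset (E → Fin (p + 1)) := fun S =>
    univ.filter (fun f => ((ed S).filter (fun e => f e = 0)).card ≤ 3 * k) with hA
  set B : Finset (Fin N) → Finset (E → Fin (p + 1)) := fun S =>
    univ.filter (fun f => ∃ M ⊆ tri S, M.card = k ∧ Good f M) with hB
  have he1 := Real.exp_one_gt_d9
  have he2 := Real.exp_one_lt_d9
  have hAcard : ∀ S : Finset (Fin N), S.card = n → ((A S).card : ℝ) ≤ Q * Real.exp (-(k : ℝ)) := by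
    intro S hS
    have h5 := count_few p (ed S) (3 * k)
    rw [card_ed, hS] at h5
    refine h5.trans ?_
    have h6 : (6 * k : ℝ) ≤ (n.choose 2 : ℝ) / (2 * ((p : ℝ) + 1)) := by
      rw [le_div_iff₀ (by positivity)]
      have h1' : (12 * ((p : ℝ) + 1) * k) ≤ (n.choose 2 : ℝ) := by exact_mod_cast h1
      linarith
    have h7 : Real.exp (-((n.choose 2 : ℝ) / (2 * ((p : ℝ) + 1)))) ≤ Real.exp (-(6 * k : ℝ)) :=
      Real.exp_le_exp.2 (by linarith)
    have h8 : (2 : ℝ) ^ (3 * k) * Real.exp (-(6 * k : ℝ)) ≤ Real.exp (-(k : ℝ)) := by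
      have h9 : (2 : ℝ) ^ (3 * k) ≤ Real.exp (5 * k : ℝ) := by
        rw [pow_mul, mul_comm, Real.exp_nat_mul]
        apply pow_le_pow_left₀ (by positivity)
        have h10 : Real.exp 5 = Real.exp 1 ^ 5 := by
          rw [← Real.exp_nat_mul]; norm_num
        rw [h10]
        have h11 : (2.7 : ℝ) ^ 5 ≤ Real.exp 1 ^ 5 :=
          pow_le_pow_left₀ (by norm_num) (by linarith) _
        norm_num at h11 ⊢
        linarith
      calc _ ≤ Real.exp (5 * k : ℝ) * Real.exp (-(6 * k : ℝ)) :=
            mul_le_mul_of_nonneg_right h9 (Real.exp_pos _).le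
        _ = _ := by rw [← Real.exp_add]; congr 1; ring
    calc (2 : ℝ) ^ (3 * k) * Q * Real.exp (-((n.choose 2 : ℝ) / (2 * ((p : ℝ) + 1))))
        ≤ (2 : ℝ) ^ (3 * k) * Q * Real.exp (-(6 * k : ℝ)) :=
          mul_le_mul_of_nonneg_left h7 (by positivity)
      _ = Q * ((2 : ℝ) ^ (3 * k) * Real.exp (-(6 * k : ℝ))) := by ring
      _ ≤ _ := mul_le_mul_of_nonneg_left h8 hQpos.le
  have hBcard : ∀ S : Finset (Fin N), S.card = n → ((B S).card : ℝ) ≤ Q * Real.exp (-(k : ℝ)) := by
    intro S hS
    have h5 := count_triangles p k S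
    set q : ℝ := (p : ℝ) + 1 with hq
    have hqpos : 0 < q := by positivity
    have h6 : ((tri S).card : ℝ) ≤ 0.13 * q ^ 3 * k := by
      have h7 : ((tri S).card : ℝ) ≤ (n.choose 2 : ℝ) * N := by
        have := card_tri S
        rw [hS] at this
        exact_mod_cast this
      have h2' : (n.choose 2 : ℝ) ≤ 13 * q * k := by rw [hq]; exact_mod_cast h2
      have h3' : (100 : ℝ) * N ≤ q ^ 2 := by rw [hq]; exact_mod_cast h3
      calc ((tri S).card : ℝ) ≤ (n.choose 2 : ℝ) * N := h7
        _ ≤ (13 * q * k) * (q ^ 2 / 100) := by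
            apply mul_le_mul h2' (by linarith) (by positivity) (by positivity)
        _ = _ := by ring
    have h8 : (((tri S).card.choose k : ℕ) : ℝ) ≤ (0.13 * Real.exp 1) ^ k * q ^ (3 * k) := by
      have h9 : (((tri S).card.choose k : ℕ) : ℝ) ≤ ((tri S).card : ℝ) ^ k / k.factorial :=
        Nat.choose_le_pow_div k _
      have h10 : ((k : ℝ)) ^ k / k.factorial ≤ Real.exp 1 ^ k := by
        rw [← Real.exp_nat_mul, mul_one]
        exact Real.pow_div_factorial_le_exp (k : ℝ) (by positivity) k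
      calc _ ≤ _ := h9
        _ ≤ (0.13 * q ^ 3 * k) ^ k / k.factorial := by
            apply div_le_div_of_nonneg_right _ (by positivity)
            exact pow_le_pow_left₀ (by positivity) h6 _
        _ = (0.13) ^ k * q ^ (3 * k) * ((k : ℝ) ^ k / k.factorial) := by
            rw [mul_pow, mul_pow, ← pow_mul]; ring
        _ ≤ (0.13) ^ k * q ^ (3 * k) * (Real.exp 1 ^ k) :=
            mul_le_mul_of_nonneg_left h10 (by positivity)
        _ = _ := by rw [mul_pow]; ring
    have h11 : (0.13 * Real.exp 1) ^ k ≤ Real.exp (-(k : ℝ)) := by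
      have h12 : Real.exp (-(k : ℝ)) = (Real.exp (-1)) ^ k := by
        rw [← Real.exp_nat_mul]; congr 1; ring
      rw [h12]
      apply pow_le_pow_left₀ (by positivity)
      have h13 : Real.exp (-1) * Real.exp 1 = 1 := by
        rw [← Real.exp_add]; simp
      have h14 : 0.13 * Real.exp 1 * Real.exp 1 ≤ 1 := by nlinarith
      have h15 : 0.13 * Real.exp 1 * Real.exp 1 ≤ Real.exp (-1) * Real.exp 1 := by linarith
      exact le_of_mul_le_mul_right h15 (Real.exp_pos 1)
    have h16 : ((B S).card : ℝ) * q ^ (3 * k) ≤ Q * Real.exp (-(k : ℝ)) * q ^ (3 * k) := by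
      calc _ ≤ (((tri S).card.choose k : ℕ) : ℝ) * Q := h5
        _ ≤ ((0.13 * Real.exp 1) ^ k * q ^ (3 * k)) * Q :=
            mul_le_mul_of_nonneg_right h8 hQpos.le
        _ ≤ (Real.exp (-(k : ℝ)) * q ^ (3 * k)) * Q := by
            apply mul_le_mul_of_nonneg_right _ hQpos.le
            exact mul_le_mul_of_nonneg_right h11 (by positivity)
        _ = _ := by ring
    exact le_of_mul_le_mul_right h16 (by positivity)
  set bad : Finset (E → Fin (p + 1)) :=
    (powersetCard n (univ : Finset (Fin N))).biUnion (fun S => A S ∪ B S) with hbad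
  have hbadcard : (bad.card : ℝ) < Q := by
    calc (bad.card : ℝ) ≤ ∑ S ∈ powersetCard n (univ : Finset (Fin N)), ((A S ∪ B S).card : ℝ) := by
          exact_mod_cast Finset.card_biUnion_le
      _ ≤ ∑ S ∈ powersetCard n (univ : Finset (Fin N)), (Q * (2 * Real.exp (-(k : ℝ)))) := by
          apply Finset.sum_le_sum
          intro S hS
          have hS' := (mem_powersetCard.1 hS).2
          have h5 : ((A S ∪ B S).card : ℝ) ≤ (A S).card + (B S).card := by
            exact_mod_cast Finset.card_union_le _ _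
          linarith [hAcard S hS', hBcard S hS']
      _ = (N.choose n : ℝ) * (Q * (2 * Real.exp (-(k : ℝ)))) := by
          rw [Finset.sum_const, nsmul_eq_mul, Finset.card_powersetCard, Finset.card_univ,
            Fintype.card_fin]
      _ ≤ (N : ℝ) ^ n * (Q * (2 * Real.exp (-(k : ℝ)))) := by
          apply mul_le_mul_of_nonneg_right _ (by positivity)
          exact_mod_cast Nat.choose_le_pow N n
      _ = Q * ((N : ℝ) ^ n * (2 * Real.exp (-(k : ℝ)))) := by ring
      _ < Q * 1 := mul_lt_mul_of_pos_left h4 hQpos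
      _ = Q := mul_one _
  obtain ⟨f, hf⟩ : ∃ f, f ∉ bad := by
    by_contra hcon
    push Not at hcon
    have h5 : bad = univ := by
      ext f; simp [hcon f]
    rw [h5, Finset.card_univ] at hbadcard
    simp only [Fintype.card_fun, Fintype.card_fin, Nat.cast_pow, Nat.cast_add, Nat.cast_one]
      at hbadcard
    exact lt_irrefl _ hbadcard
  have hf' : ∀ S : Finset (Fin N), S.card = n → f ∉ A S ∧ f ∉ B S := by
    intro S hS
    have h5 : f ∉ A S ∪ B S := fun h =>
      hf (mem_biUnion.2 ⟨S, mem_powersetCard.2 ⟨Finset.subset_univ _, hS⟩, h⟩)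
    rw [mem_union, not_or] at h5
    exact h5
  refine graph_of_good (k := k) f ?_ ?_
  · intro S hS
    have := (hf' S hS).1
    rw [hA] at this
    simp only [mem_filter, mem_univ, true_and, not_le] at this
    exact this
  · intro S hS
    have := (hf' S hS).2
    rw [hB] at this
    simp only [mem_filter, mem_univ, true_and] at this
    exact this

/-- if there is a triangle-free graph on `N` vertices without independent sets of size `n`, then
`r(3,n) > N`. -/
lemma lt_r {N n : ℕ} (F : SimpleGraph (Fin N))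
    (h1 : ∀ a b c, F.Adj a b → F.Adj b c → F.Adj a c → False)
    (h2 : ∀ S : Finset (Fin N), S.card = n → ¬ F.IsIndepSet (S : Set (Fin N))) :
    N < r 3 n := by
  classical
  have hne : {N | ∀ G : SimpleGraph (Fin N), 3 ≤ alphaP N G ∨ n ≤ alphaP N Gᶜ}.Nonempty := by
    refine ⟨n * n + 1, ?_⟩
    intro G
    by_contra hcon
    rw [not_or, not_le, not_le] at hcon
    obtain ⟨h3, h4⟩ := hcon
    have htf : ∀ a b c, Gᶜ.Adj a b → Gᶜ.Adj b c → Gᶜ.Adj a c → False := by
      intro a b c hab hbc hac
      have h5 : G.IsIndepSet (({a, b, c} : Finset (Fin (n * n + 1))) : Set _) := by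
        intro x hx y hy hxy
        simp only [coe_insert, coe_singleton, Set.mem_insert_iff, Set.mem_singleton_iff] at hx hy
        rw [SimpleGraph.compl_adj] at hab hbc hac
        rcases hx with rfl | rfl | rfl <;> rcases hy with rfl | rfl | rfl <;>
          first
            | exact absurd rfl hxy
            | exact hab.2
            | exact hbc.2
            | exact hac.2
            | (intro h; exact hab.2 h.symm)
            | (intro h; exact hbc.2 h.symm)
            | (intro h; exact hac.2 h.symm)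
      have h6 := h5.card_le_indepNum
      have h7 : ({a, b, c} : Finset (Fin (n * n + 1))).card = 3 := by
        rw [Finset.card_eq_three]
        exact ⟨a, b, c, hab.ne, hac.ne, hbc.ne, rfl⟩
      have : alphaP _ G = G.indepNum := rfl
      omega
    have hcard : ∀ S : Finset (Fin (n * n + 1)), Gᶜ.IsIndepSet (S : Set _) → S.card + 1 ≤ n := by
      intro S hS
      have h5 := hS.card_le_indepNum
      have : alphaP _ Gᶜ = Gᶜ.indepNum := rfl
      omega
    have h5 := caro_wei (F := Gᶜ) (a := (n : ℝ) - 1) (fun S hS => by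
      have : ((S.card : ℝ) + 1) ≤ n := by exact_mod_cast hcard S hS
      linarith)
    have hn : (0 : ℝ) < n := by
      have := hcard ∅ (by simp [SimpleGraph.IsIndepSet])
      exact_mod_cast (by omega : 0 < n)
    have h6 : ∀ x, (1 : ℝ) / n ≤ 1 / (1 + (nb Gᶜ x).card) := by
      intro x
      apply div_le_div_of_nonneg_left zero_le_one (by positivity)
      have h7 := hcard (nb Gᶜ x) (by
        intro y hy z hz _ hadj
        exact htf x y z (mem_nb.1 hy) hadj (mem_nb.1 hz))
      have : (((nb Gᶜ x).card : ℝ) + 1) ≤ n := by exact_mod_cast h7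
      linarith
    have h7 : ∑ _x : Fin (n * n + 1), (1 : ℝ) / n ≤ (n : ℝ) - 1 :=
      le_trans (Finset.sum_le_sum (fun x _ => h6 x)) h5
    rw [Finset.sum_const, nsmul_eq_mul, Finset.card_univ, Fintype.card_fin, mul_one_div,
      div_le_iff₀ hn] at h7
    push_cast at h7
    nlinarith
  have h3 : r 3 n ∈ {N | ∀ G : SimpleGraph (Fin N), 3 ≤ alphaP N G ∨ n ≤ alphaP N Gᶜ} :=
    Nat.sInf_mem hne
  by_contra hle
  rw [not_lt] at hle
  set F' : SimpleGraph (Fin (r 3 n)) := F.comap (Fin.castLE hle) with hF'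
  rcases h3 F'ᶜ with h4 | h4
  · -- a triangle
    obtain ⟨s, hs⟩ := SimpleGraph.exists_isNIndepSet_indepNum (G := F'ᶜ)
    have h5 : alphaP _ F'ᶜ = s.card := hs.card_eq.symm
    rw [h5] at h4
    obtain ⟨t, hts, ht3⟩ := Finset.exists_subset_card_eq h4
    rw [Finset.card_eq_three] at ht3
    obtain ⟨a, b, c, hab, hac, hbc, rfl⟩ := ht3
    have hadj : ∀ x ∈ s, ∀ y ∈ s, x ≠ y → F'.Adj x y := by
      intro x hx y hy hxy
      by_contra hcon
      exact hs.isIndepSet (mem_coe.2 hx) (mem_coe.2 hy) hxy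
        ((SimpleGraph.compl_adj _ _ _).2 ⟨hxy, hcon⟩)
    have ha : a ∈ s := hts (by simp)
    have hb : b ∈ s := hts (by simp)
    have hc : c ∈ s := hts (by simp)
    exact h1 _ _ _ (hadj a ha b hb hab) (hadj b hb c hc hbc) (hadj a ha c hc hac)
  · rw [compl_compl] at h4
    obtain ⟨s, hs⟩ := SimpleGraph.exists_isNIndepSet_indepNum (G := F')
    have h5 : alphaP _ F' = s.card := hs.card_eq.symm
    rw [h5] at h4
    obtain ⟨t, hts, htn⟩ := Finset.exists_subset_card_eq h4
    apply h2 (t.map (Fin.castLEEmb hle)) (by rw [Finset.card_map, htn])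
    intro x hx y hy hxy hadj
    rw [mem_coe] at hx hy
    obtain ⟨x', hx', rfl⟩ := mem_map.1 hx
    obtain ⟨y', hy', rfl⟩ := mem_map.1 hy
    exact hs.isIndepSet (mem_coe.2 (hts hx')) (mem_coe.2 (hts hy'))
      (fun h => hxy (by rw [h])) hadj

end Pool.Agent.helper56.Irr
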