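import Pool.Agent.helper56.Irr.Defs

/-! Random order arguments, by counting permutations. -/

namespace Pool.Agent.helper56.Irr

open Finset

variable {V : Type*} [Fintype V] [DecidableEq V]

/-- `b` comes first in `B` in the order given by `σ` (and the fixed enumeration `e`). -/
def First (e : V → ℕ) (B : Finset V) (b : V) (σ : Equiv.Perm V) : Prop :=
  ∀ c ∈ B, e (σ b) ≤ e (σ c)

open Classical in
/-- the set of permutations in which `b` comes first in `B` -/
noncomputable def firsts (e : V → ℕ) (B : Finset V) (b : V) : Finset (Equiv.Perm V) :=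
  univ.filter (fun σ => First e B b σ)

lemma mem_firsts {e : V → ℕ} {B : Finset V} {b : V} {σ : Equiv.Perm V} :
    σ ∈ firsts e B b ↔ First e B b σ := by
  simp [firsts]

lemma card_firsts_le {e : V → ℕ} {B : Finset V} {b b' : V} (hb : b ∈ B)
    (hb' : b' ∈ B) : (firsts e B b).card ≤ (firsts e B b').card := by
  refine Finset.card_le_card_of_injOn (fun σ => σ * Equiv.swap b b') ?_ ?_
  · intro σ hσ
    have hσ' : First e B b σ := mem_firsts.1 hσ
    refine mem_firsts.2 ?_
    intro c hc
    simp only [Equiv.Perm.mul_apply, Equiv.swap_apply_right]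
    by_cases h1 : c = b
    · subst h1
      rw [Equiv.swap_apply_left]
      exact hσ' _ hb'
    · by_cases h2 : c = b'
      · subst h2
        rw [Equiv.swap_apply_right]
      · rw [Equiv.swap_apply_of_ne_of_ne h1 h2]
        exact hσ' _ hc
  · intro σ _ τ _ h
    exact mul_right_cancel h

lemma card_firsts_eq {e : V → ℕ} {B : Finset V} {b b' : V} (hb : b ∈ B)
    (hb' : b' ∈ B) : (firsts e B b).card = (firsts e B b').card :=
  le_antisymm (card_firsts_le hb hb') (card_firsts_le hb' hb)

lemma firsts_disjoint {e : V → ℕ} (he : Function.Injective e) {B : Finset V} {b b' : V}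
    (hb : b ∈ B) (hb' : b' ∈ B) (hne : b ≠ b') : Disjoint (firsts e B b) (firsts e B b') := by
  rw [Finset.disjoint_left]
  intro σ h1 h2
  have h1' := mem_firsts.1 h1 b' hb'
  have h2' := mem_firsts.1 h2 b hb
  exact hne (σ.injective (he (le_antisymm h1' h2')))

lemma sum_card_firsts {e : V → ℕ} (he : Function.Injective e) {B : Finset V}
    (hB : B.Nonempty) : ∑ b ∈ B, (firsts e B b).card = (Fintype.card V).factorial := by
  rw [← Fintype.card_perm, ← Finset.card_univ (α := Equiv.Perm V), ← Finset.card_biUnion]
  · congr 1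
    ext σ
    simp only [mem_biUnion, mem_univ, iff_true]
    obtain ⟨b, hb, hmin⟩ := Finset.exists_min_image B (fun c => e (σ c)) hB
    exact ⟨b, hb, mem_firsts.2 hmin⟩
  · intro b hb b' hb' hne
    exact firsts_disjoint he hb hb' hne

lemma card_firsts {e : V → ℕ} (he : Function.Injective e) {B : Finset V} {b : V}
    (hb : b ∈ B) : B.card * (firsts e B b).card = (Fintype.card V).factorial := by
  rw [← sum_card_firsts he ⟨b, hb⟩]
  rw [Finset.sum_congr rfl (fun c hc => card_firsts_eq (e := e) hc hb)]
  simp

/-- The probability that the first element of `B` lies in `A ⊆ B`. -/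
lemma card_firsts_subset {e : V → ℕ} (he : Function.Injective e) {A B : Finset V}
    (hAB : A ⊆ B) :
    ((univ : Finset (Equiv.Perm V)).filter (fun σ => ∃ a ∈ A, σ ∈ firsts e B a)).card * B.card
      = A.card * (Fintype.card V).factorial := by
  have h1 : ((univ : Finset (Equiv.Perm V)).filter (fun σ => ∃ a ∈ A, σ ∈ firsts e B a))
      = A.biUnion (fun a => firsts e B a) := by
    ext σ; simp
  rw [h1, Finset.card_biUnion]
  · rw [Finset.sum_mul, Finset.sum_congr rfl (fun a ha => by
      rw [mul_comm, card_firsts he (hAB ha)])]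
    simp
  · intro b hb b' hb' hne
    exact firsts_disjoint he (hAB hb) (hAB hb') hne

/-- Averaging: if for every permutation the set of `z ∈ Z` with `P σ z` has at most `a` elements,
and each `z` is chosen with probability at least `w z`, then `∑ w ≤ a`. -/
lemma averaging (Z : Finset V) (P : Equiv.Perm V → V → Prop)
    [∀ σ z, Decidable (P σ z)] (a : ℝ) (w : V → ℝ)
    (h1 : ∀ σ, ((Z.filter (fun z => P σ z)).card : ℝ) ≤ a)
    (h2 : ∀ z ∈ Z, w z * (Fintype.card V).factorial ≤
      (((univ : Finset (Equiv.Perm V)).filter (fun σ => P σ z)).card : ℝ)) :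
    ∑ z ∈ Z, w z ≤ a := by
  have hpos : (0 : ℝ) < (Fintype.card V).factorial := by exact_mod_cast Nat.factorial_pos _
  have h3 : ∑ z ∈ Z, (((univ : Finset (Equiv.Perm V)).filter (fun σ => P σ z)).card : ℝ)
      = ∑ σ : Equiv.Perm V, ((Z.filter (fun z => P σ z)).card : ℝ) := by
    simp only [Finset.card_filter, Nat.cast_sum]
    exact Finset.sum_comm
  have h4 : ∑ σ : Equiv.Perm V, ((Z.filter (fun z => P σ z)).card : ℝ)
      ≤ (Fintype.card V).factorial * a := by
    calc _ ≤ ∑ σ : Equiv.Perm V, a := Finset.sum_le_sum (fun σ _ => h1 σ)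
      _ = _ := by
        rw [Finset.sum_const, nsmul_eq_mul, Finset.card_univ, Fintype.card_perm]
  have h5 : (∑ z ∈ Z, w z) * (Fintype.card V).factorial ≤ (Fintype.card V).factorial * a := by
    rw [Finset.sum_mul]
    calc _ ≤ _ := Finset.sum_le_sum h2
      _ = _ := h3
      _ ≤ _ := h4
  rw [mul_comm] at h5
  exact le_of_mul_le_mul_left h5 hpos

end Pool.Agent.helper56.Irr
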