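import Pool.Agent.helper56.Irr.Order

/-! Upper bound: a graph `F` on `N` vertices such that all minimal dominating sets of the
complement have at most two vertices and all independent sets at most `a` vertices has
`N ≤ 5 a^(5/3)`. -/

namespace Pool.Agent.helper56.Irr

open Finset

variable {V : Type*} [Fintype V] [DecidableEq V]

/-- `F` shows that the mixed domination Ramsey number `v(m,n)` cannot be `|V|`. -/
def Failing {V : Type*} (F : SimpleGraph V) (m n : ℕ) : Prop :=
  (∀ X : Finset V, MinDominating Fᶜ X → X.card < m) ∧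
    (∀ S : Finset V, F.IsIndepSet (S : Set V) → S.card < n)

omit [Fintype V] [DecidableEq V] in
lemma MinDominating.of_maximal_clique {F : SimpleGraph V} {K : Finset V}
    (hK : F.IsClique (K : Set V)) (hmax : ∀ v, v ∉ K → ∃ x ∈ K, ¬ F.Adj x v) :
    MinDominating Fᶜ K := by
  refine ⟨?_, ?_⟩
  · intro v hv
    obtain ⟨x, hx, hadj⟩ := hmax v hv
    refine ⟨x, hx, ?_⟩
    rw [SimpleGraph.compl_adj]
    refine ⟨?_, hadj⟩
    rintro rfl
    exact hv hx
  · intro Y hY hdom
    obtain ⟨k, hk, hkY⟩ := Finset.exists_of_ssubset hY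
    obtain ⟨y, hy, hadj⟩ := hdom k hkY
    rw [SimpleGraph.compl_adj] at hadj
    exact hadj.2 (hK (hY.1 hy) hk hadj.1)

lemma exists_maximal_clique {F : SimpleGraph V} {K : Finset V}
    (hK : F.IsClique (K : Set V)) :
    ∃ K' : Finset V, K ⊆ K' ∧ F.IsClique (K' : Set V) ∧
      (∀ v, v ∉ K' → ∃ x ∈ K', ¬ F.Adj x v) := by
  classical
  obtain ⟨K', hK', hmax⟩ := Finset.exists_max_image
    ((univ : Finset (Finset V)).filter (fun L => K ⊆ L ∧ F.IsClique (L : Set V)))
    Finset.card ⟨K, by simp [hK]⟩
  simp only [mem_filter, mem_univ, true_and] at hK' hmax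
  refine ⟨K', hK'.1, hK'.2, ?_⟩
  intro v hv
  by_contra hcon
  push Not at hcon
  have h1 : F.IsClique ((insert v K' : Finset V) : Set V) := by
    rw [Finset.coe_insert]
    refine hK'.2.insert ?_
    intro b hb _
    exact (hcon b hb).symm
  have h2 := hmax (insert v K') ⟨hK'.1.trans (Finset.subset_insert _ _), h1⟩
  rw [Finset.card_insert_of_notMem hv] at h2
  omega

lemma clique_card_lt {F : SimpleGraph V} {m n : ℕ} (hF : Failing F m n) {K : Finset V}
    (hK : F.IsClique (K : Set V)) : K.card < m := by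
  obtain ⟨K', h1, h2, h3⟩ := exists_maximal_clique hK
  exact lt_of_le_of_lt (Finset.card_le_card h1)
    (hF.1 K' (MinDominating.of_maximal_clique h2 h3))

lemma triangle_free {F : SimpleGraph V} {n : ℕ} (hF : Failing F 3 n) {a b c : V}
    (hab : F.Adj a b) (hbc : F.Adj b c) (hac : F.Adj a c) : False := by
  have h1 : F.IsClique (({a, b, c} : Finset V) : Set V) := by
    intro x hx y hy hxy
    simp only [coe_insert, coe_singleton, Set.mem_insert_iff, Set.mem_singleton_iff] at hx hy
    rcases hx with rfl | rfl | rfl <;> rcases hy with rfl | rfl | rfl <;>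
      first
        | exact absurd rfl hxy
        | assumption
        | exact hab.symm
        | exact hbc.symm
        | exact hac.symm
  have h2 := clique_card_lt hF h1
  have h3 : ({a, b, c} : Finset V).card = 3 := by
    rw [Finset.card_eq_three]
    exact ⟨a, b, c, hab.ne, hac.ne, hbc.ne, rfl⟩
  omega

/-- The Helly property of open neighbourhoods. -/
lemma helly {F : SimpleGraph V} {n : ℕ} (hF : Failing F 3 n) (A : Finset V) :
    A.Nonempty → (∀ a ∈ A, ∀ b ∈ A, ∃ c, F.Adj c a ∧ F.Adj c b) →
      ∃ c, ∀ a ∈ A, F.Adj c a := by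
  induction A using Finset.strongInduction with
  | H A ih =>
    intro hne hpair
    by_contra hcon
    push Not at hcon
    have hp : ∀ a ∈ A, ∃ p, ∀ b ∈ A.erase a, F.Adj p b := by
      intro a ha
      by_cases hemp : (A.erase a).Nonempty
      · exact ih _ (Finset.erase_ssubset ha) hemp (fun x hx y hy =>
          hpair x (Finset.mem_of_mem_erase hx) y (Finset.mem_of_mem_erase hy))
      · rw [Finset.not_nonempty_iff_eq_empty] at hemp
        exact ⟨a, by simp [hemp]⟩
    have hmin : MinDominating Fᶜ A := by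
      refine ⟨?_, ?_⟩
      · intro v hv
        obtain ⟨a, ha, hadj⟩ := hcon v
        refine ⟨a, ha, ?_⟩
        rw [SimpleGraph.compl_adj]
        refine ⟨?_, fun h => hadj h.symm⟩
        rintro rfl
        exact hv ha
      · intro Y hY hdom
        obtain ⟨a, ha, haY⟩ := Finset.exists_of_ssubset hY
        obtain ⟨p, hp'⟩ := hp a ha
        have hsub : ∀ y ∈ Y, F.Adj p y := by
          intro y hy
          refine hp' y (Finset.mem_erase.2 ⟨?_, hY.1 hy⟩)
          rintro rfl
          exact haY hy
        have hpY : p ∉ Y := fun h => (hsub p h).ne rfl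
        obtain ⟨y, hy, hadj⟩ := hdom p hpY
        rw [SimpleGraph.compl_adj] at hadj
        exact hadj.2 (hsub y hy).symm
    have hcard := hF.1 A hmin
    -- `A` has at most two elements
    obtain ⟨a, ha⟩ := hne
    by_cases h1 : ∃ b ∈ A, b ≠ a
    · obtain ⟨b, hb, hba⟩ := h1
      have hA : A = {a, b} := by
        symm
        apply Finset.eq_of_subset_of_card_le
        · intro x hx
          simp only [mem_insert, mem_singleton] at hx
          rcases hx with rfl | rfl <;> assumption
        · rw [Finset.card_pair hba.symm]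
          omega
      obtain ⟨c, h2, h3⟩ := hpair a ha b hb
      obtain ⟨x, hx, hx'⟩ := hcon c
      rw [hA] at hx
      simp only [mem_insert, mem_singleton] at hx
      rcases hx with rfl | rfl
      · exact hx' h2
      · exact hx' h3
    · push Not at h1
      obtain ⟨c, h2, h3⟩ := hpair a ha a ha
      obtain ⟨x, hx, hx'⟩ := hcon c
      rw [h1 x hx] at hx'
      exact hx' h2

open Classical in
/-- neighbourhood -/
noncomputable def nb (F : SimpleGraph V) (x : V) : Finset V := univ.filter (fun y => F.Adj x y)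

open Classical in
/-- second neighbourhood -/
noncomputable def nb2 (F : SimpleGraph V) (x : V) : Finset V :=
  univ.filter (fun z => z ≠ x ∧ ∃ c, F.Adj x c ∧ F.Adj c z)

lemma mem_nb {F : SimpleGraph V} {x y : V} : y ∈ nb F x ↔ F.Adj x y := by simp [nb]

lemma mem_nb2 {F : SimpleGraph V} {x z : V} :
    z ∈ nb2 F x ↔ z ≠ x ∧ ∃ c, F.Adj x c ∧ F.Adj c z := by simp [nb2]

/-- Caro and Wei. -/
lemma caro_wei {F : SimpleGraph V} {a : ℝ}
    (ha : ∀ S : Finset V, F.IsIndepSet (S : Set V) → (S.card : ℝ) ≤ a) :
    ∑ v, (1 : ℝ) / (1 + (nb F v).card) ≤ a := by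
  classical
  obtain ⟨e, he⟩ : ∃ e : V → ℕ, Function.Injective e :=
    ⟨fun v => (Fintype.equivFin V v : ℕ), fun x y h =>
      (Fintype.equivFin V).injective (Fin.ext h)⟩
  refine averaging univ (fun σ v => σ ∈ firsts e (insert v (nb F v)) v) a _ ?_ ?_
  · intro σ
    apply ha
    intro v hv w hw hvw hadj
    simp only [mem_filter, coe_filter, Set.mem_ofPred_eq, mem_univ, true_and] at hv hw
    have h1 := mem_firsts.1 hv w (mem_insert_of_mem (mem_nb.2 hadj))
    have h2 := mem_firsts.1 hw v (mem_insert_of_mem (mem_nb.2 hadj.symm))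
    exact hvw (σ.injective (he (le_antisymm h1 h2)))
  · intro v _
    have h1 : ((univ : Finset (Equiv.Perm V)).filter
        (fun σ => σ ∈ firsts e (insert v (nb F v)) v)) = firsts e (insert v (nb F v)) v := by
      ext σ; simp
    rw [h1]
    have h2 := card_firsts he (mem_insert_self v (nb F v))
    have h3 : ((insert v (nb F v)).card : ℝ) ≤ 1 + (nb F v).card := by
      have := Finset.card_insert_le v (nb F v)
      have h4 : ((insert v (nb F v)).card : ℝ) ≤ ((nb F v).card + 1 : ℕ) := by exact_mod_cast this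
      push_cast at h4
      linarith
    have h5 : ((Fintype.card V).factorial : ℝ)
        = (insert v (nb F v)).card * (firsts e (insert v (nb F v)) v).card := by
      exact_mod_cast h2.symm
    rw [h5, div_mul_eq_mul_div, one_mul, div_le_iff₀ (by positivity), mul_comm]
    exact mul_le_mul_of_nonneg_left h3 (by positivity)

/-- In a triangle-free graph, `∑ d(v)/(1+d(v)+|N₂(v)|) ≤ α`. -/
lemma second_bound {F : SimpleGraph V} {a : ℝ}
    (htri : ∀ x y z, F.Adj x y → F.Adj y z → F.Adj x z → False)
    (ha : ∀ S : Finset V, F.IsIndepSet (S : Set V) → (S.card : ℝ) ≤ a) :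
    ∑ v, ((nb F v).card : ℝ) / (1 + (nb F v).card + (nb2 F v).card) ≤ a := by
  classical
  obtain ⟨e, he⟩ : ∃ e : V → ℕ, Function.Injective e :=
    ⟨fun v => (Fintype.equivFin V v : ℕ), fun x y h =>
      (Fintype.equivFin V).injective (Fin.ext h)⟩
  refine averaging univ
    (fun σ v => ∃ u ∈ nb F v, σ ∈ firsts e (insert v (nb F v ∪ nb2 F v)) u) a _ ?_ ?_
  · intro σ
    apply ha
    intro v hv w hw hvw hadj
    simp only [coe_filter, Set.mem_ofPred_eq, mem_univ, true_and] at hv hw
    obtain ⟨u, hu, hu'⟩ := hv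
    obtain ⟨t, ht, ht'⟩ := hw
    have hB : ∀ x y : V, F.Adj x y → ∀ s ∈ nb F x, s ∈ insert y (nb F y ∪ nb2 F y) := by
      intro x y hxy s hs
      by_cases hsy : s = y
      · subst hsy; exact mem_insert_self _ _
      · apply mem_insert_of_mem
        apply mem_union_right
        exact mem_nb2.2 ⟨hsy, x, hxy.symm, mem_nb.1 hs⟩
    have h1 := mem_firsts.1 hu' t (hB w v hadj.symm t ht)
    have h2 := mem_firsts.1 ht' u (hB v w hadj u hu)
    have h3 : u = t := σ.injective (he (le_antisymm h1 h2))
    subst h3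
    exact htri v w u hadj (mem_nb.1 ht) (mem_nb.1 hu)
  · intro v _
    have hsub : nb F v ⊆ insert v (nb F v ∪ nb2 F v) :=
      (Finset.subset_union_left).trans (Finset.subset_insert _ _)
    have h2 := card_firsts_subset he hsub
    have h3 : ((insert v (nb F v ∪ nb2 F v)).card : ℝ)
        ≤ 1 + (nb F v).card + (nb2 F v).card := by
      have h4 := Finset.card_insert_le v (nb F v ∪ nb2 F v)
      have h5 := Finset.card_union_le (nb F v) (nb2 F v)
      have h6 : ((insert v (nb F v ∪ nb2 F v)).card : ℝ)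
          ≤ ((nb F v).card + (nb2 F v).card + 1 : ℕ) := by
        exact_mod_cast h4.trans (by omega)
      push_cast at h6
      linarith
    rw [div_mul_eq_mul_div, div_le_iff₀ (by positivity)]
    have h7 : ((nb F v).card : ℝ) * (Fintype.card V).factorial
        = (((univ : Finset (Equiv.Perm V)).filter
          (fun σ => ∃ a ∈ nb F v, σ ∈ firsts e (insert v (nb F v ∪ nb2 F v)) a)).card : ℝ)
          * (insert v (nb F v ∪ nb2 F v)).card := by
      exact_mod_cast h2.symm
    rw [h7]
    exact mul_le_mul_of_nonneg_left h3 (by positivity)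

/-- Bound for the second neighbourhood of `x`. -/
lemma nb2_bound {F : SimpleGraph V} {a : ℝ} {n : ℕ} (hF : Failing F 3 n)
    (ha : ∀ S : Finset V, F.IsIndepSet (S : Set V) → (S.card : ℝ) ≤ a) (x : V) :
    ((nb2 F x).card : ℝ) ^ 2 ≤ 2 * a ^ 2 * (nb F x).card := by
  classical
  obtain ⟨e, he⟩ : ∃ e : V → ℕ, Function.Injective e :=
    ⟨fun v => (Fintype.equivFin V v : ℕ), fun x y h =>
      (Fintype.equivFin V).injective (Fin.ext h)⟩
  have ha0 : 0 ≤ a := le_trans (by simp) (ha ∅ (by simp [SimpleGraph.IsIndepSet]))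
  -- the special neighbour
  have hs : ∀ z : V, ∃ s : V, z ∈ nb2 F x →
      (F.Adj x s ∧ ∀ y ∈ nb2 F x, F.Adj z y → F.Adj s y) := by
    intro z
    by_cases hz : z ∈ nb2 F x
    · obtain ⟨s, hs⟩ := helly hF (insert x ((nb2 F x).filter (fun y => F.Adj z y)))
        ⟨x, mem_insert_self _ _⟩ (by
          obtain ⟨hzx, c0, hc0, hc0'⟩ := mem_nb2.1 hz
          intro p hp q hq
          simp only [mem_insert, mem_filter] at hp hq
          rcases hp with rfl | ⟨hp, hp'⟩
          · rcases hq with rfl | ⟨hq, hq'⟩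
            · exact ⟨c0, hc0.symm, hc0.symm⟩
            · obtain ⟨_, c, h1, h2⟩ := mem_nb2.1 hq
              exact ⟨c, h1.symm, h2⟩
          · rcases hq with rfl | ⟨hq, hq'⟩
            · obtain ⟨_, c, h1, h2⟩ := mem_nb2.1 hp
              exact ⟨c, h2, h1.symm⟩
            · exact ⟨z, hp', hq'⟩)
      refine ⟨s, fun _ => ⟨(hs x (mem_insert_self _ _)).symm, ?_⟩⟩
      intro y hy hzy
      exact hs y (mem_insert_of_mem (mem_filter.2 ⟨hy, hzy⟩))
    · exact ⟨z, fun h => absurd h hz⟩
  choose s hs using hs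
  set T : V → Finset V := fun z => nb F x ∩ nb F z with hT
  have hmain : ∑ z ∈ nb2 F x, (1 : ℝ) / (1 + (T z).card) ≤ a := by
    refine averaging (nb2 F x) (fun σ z => σ ∈ firsts e (insert (s z) (T z)) (s z)) a _ ?_ ?_
    · intro σ
      apply ha
      intro z hz y hy hzy hadj
      simp only [coe_filter, Set.mem_ofPred_eq] at hz hy
      have h1 : s z ∈ T y := by
        rw [hT]
        exact mem_inter.2 ⟨mem_nb.2 (hs z hz.1).1, mem_nb.2 ((hs z hz.1).2 y hy.1 hadj).symm⟩
      have h2 : s y ∈ T z := by
        rw [hT]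
        exact mem_inter.2
          ⟨mem_nb.2 (hs y hy.1).1, mem_nb.2 ((hs y hy.1).2 z hz.1 hadj.symm).symm⟩
      have h3 := mem_firsts.1 hz.2 (s y) (mem_insert_of_mem h2)
      have h4 := mem_firsts.1 hy.2 (s z) (mem_insert_of_mem h1)
      have h5 : s z = s y := σ.injective (he (le_antisymm h3 h4))
      rw [h5] at h1
      have h6 := mem_nb.1 (mem_inter.1 h1).2
      have h7 := mem_nb.1 (mem_inter.1 h2).2
      exact triangle_free hF hadj h6 h7
    · intro z _
      have h1 : ((univ : Finset (Equiv.Perm V)).filter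
          (fun σ => σ ∈ firsts e (insert (s z) (T z)) (s z)))
          = firsts e (insert (s z) (T z)) (s z) := by
        ext σ; simp
      rw [h1]
      have h2 := card_firsts he (mem_insert_self (s z) (T z))
      have h3 : ((insert (s z) (T z)).card : ℝ) ≤ 1 + (T z).card := by
        have := Finset.card_insert_le (s z) (T z)
        have h4 : ((insert (s z) (T z)).card : ℝ) ≤ ((T z).card + 1 : ℕ) := by
          exact_mod_cast this
        push_cast at h4
        linarith
      have h5 : ((Fintype.card V).factorial : ℝ)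
          = (insert (s z) (T z)).card * (firsts e (insert (s z) (T z)) (s z)).card := by
        exact_mod_cast h2.symm
      rw [h5, div_mul_eq_mul_div, one_mul, div_le_iff₀ (by positivity), mul_comm]
      exact mul_le_mul_of_nonneg_left h3 (by positivity)
  -- degrees are at most a
  have hdeg : ∀ c, ((nb F c).card : ℝ) ≤ a := by
    intro c
    apply ha
    intro y hy z hz _ hadj
    exact triangle_free hF (mem_nb.1 hy) hadj (mem_nb.1 hz)
  have hsum : ∑ z ∈ nb2 F x, ((T z).card : ℝ) ≤ (nb F x).card * a := by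
    have h1 : ∑ z ∈ nb2 F x, ((T z).card : ℝ)
        = ∑ c ∈ nb F x, (((nb2 F x).filter (fun z => F.Adj z c)).card : ℝ) := by
      have h2 : ∀ z, T z = (nb F x).filter (fun c => F.Adj z c) := by
        intro z; ext c; simp [hT, mem_nb]
      simp only [h2, Finset.card_filter, Nat.cast_sum]
      exact Finset.sum_comm
    rw [h1]
    calc _ ≤ ∑ c ∈ nb F x, a := by
          apply Finset.sum_le_sum
          intro c _
          refine le_trans ?_ (hdeg c)
          have : (nb2 F x).filter (fun z => F.Adj z c) ⊆ nb F c := by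
            intro z hz
            exact mem_nb.2 (mem_filter.1 hz).2.symm
          exact_mod_cast Finset.card_le_card this
      _ = _ := by rw [Finset.sum_const, nsmul_eq_mul]
  have hT1 : ∀ z ∈ nb2 F x, (1 : ℝ) ≤ (T z).card := by
    intro z hz
    obtain ⟨_, c, h1, h2⟩ := mem_nb2.1 hz
    have : 0 < (T z).card := Finset.card_pos.2 ⟨c, mem_inter.2 ⟨mem_nb.2 h1, mem_nb.2 h2.symm⟩⟩
    exact_mod_cast this
  have hcs := Finset.sum_sq_le_sum_mul_sum_of_sq_le_mul (nb2 F x)
    (r := fun _ => (1 : ℝ)) (f := fun z => (1 : ℝ) / (1 + (T z).card))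
    (g := fun z => (1 : ℝ) + (T z).card)
    (fun z _ => by positivity) (fun z _ => by positivity)
    (fun z _ => by
      have : (0 : ℝ) < 1 + (T z).card := by positivity
      have h : (1 : ℝ) ^ 2 = 1 / (1 + ((T z).card : ℝ)) * (1 + ((T z).card : ℝ)) := by
        field_simp
      exact h.le)
  have h8 : ∑ z ∈ nb2 F x, ((1 : ℝ) + (T z).card) ≤ 2 * ((nb F x).card * a) := by
    calc _ ≤ ∑ z ∈ nb2 F x, (2 * ((T z).card : ℝ)) := by
          apply Finset.sum_le_sum
          intro z hz
          have := hT1 z hz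
          linarith
      _ = 2 * ∑ z ∈ nb2 F x, ((T z).card : ℝ) := by rw [Finset.mul_sum]
      _ ≤ _ := by linarith
  have h9 : (∑ _z ∈ nb2 F x, (1 : ℝ)) = (nb2 F x).card := by simp
  rw [h9] at hcs
  calc _ ≤ _ := hcs
    _ ≤ a * (2 * ((nb F x).card * a)) := by
        apply mul_le_mul hmain h8 (Finset.sum_nonneg (fun z _ => by positivity)) ha0
    _ = _ := by ring

end Pool.Agent.helper56.Irr
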