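import Pool.Agent.helper56.Irr.Upper

/-! `|V| ≤ 5 a^(5/3)` and the recursion for `m > 3`. -/

namespace Pool.Agent.helper56.Irr

open Finset

variable {V : Type*} [Fintype V] [DecidableEq V]

lemma pointwise {a b d t : ℝ} (hb : 1 ≤ b) (hab : a = b ^ 3) (hd : 1 ≤ d) (hda : d ≤ a)
    (ht0 : 0 ≤ t) (ht : t ^ 2 ≤ 2 * a ^ 2 * d) :
    1 ≤ (8 / 3) * b ^ 2 * (d / (1 + d + t)) + ((2 / 3) * b ^ 2 + 1) * (1 / (1 + d)) := by
  have ha1 : 1 ≤ a := by rw [hab]; exact one_le_pow₀ hb
  obtain ⟨s, hs0, hs⟩ : ∃ s : ℝ, 0 < s ∧ s ^ 2 = d :=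
    ⟨Real.sqrt d, Real.sqrt_pos.2 (by linarith), Real.sq_sqrt (by linarith)⟩
  have hs1 : 1 ≤ s := by nlinarith
  have hsa : s ≤ a := by nlinarith
  have ht2 : t ≤ (3 / 2) * a * s := by
    apply le_of_sq_le_sq _ (by positivity)
    calc t ^ 2 ≤ 2 * a ^ 2 * d := ht
      _ ≤ _ := by rw [← hs]; nlinarith [mul_pos (by linarith : (0 : ℝ) < a) hs0,
                    sq_nonneg (a * s)]
  have h1 : 1 + d + t ≤ 4 * a * s := by
    have h2 : (1 : ℝ) ≤ a * s := by nlinarith
    have h3 : d ≤ a * s := by rw [← hs]; nlinarith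
    nlinarith
  have h4 : s / (4 * a) ≤ d / (1 + d + t) := by
    rw [div_le_div_iff₀ (by positivity) (by positivity)]
    calc s * (1 + d + t) ≤ s * (4 * a * s) := mul_le_mul_of_nonneg_left h1 hs0.le
      _ = d * (4 * a) := by rw [← hs]; ring
  have h5 : (2 / 3) * (s / b) ≤ (8 / 3) * b ^ 2 * (d / (1 + d + t)) := by
    calc (2 / 3) * (s / b) = (8 / 3) * b ^ 2 * (s / (4 * a)) := by
          rw [hab]; field_simp; ring
      _ ≤ _ := mul_le_mul_of_nonneg_left h4 (by positivity)
  have h6 : (1 / 3) * (b ^ 2 / d) ≤ ((2 / 3) * b ^ 2 + 1) * (1 / (1 + d)) := by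
    have h7 : 1 / d ≤ 2 * (1 / (1 + d)) := by
      rw [mul_one_div, div_le_div_iff₀ (by positivity) (by positivity)]
      linarith
    calc (1 / 3) * (b ^ 2 / d) = (1 / 3) * b ^ 2 * (1 / d) := by ring
      _ ≤ (1 / 3) * b ^ 2 * (2 * (1 / (1 + d))) := mul_le_mul_of_nonneg_left h7 (by positivity)
      _ = ((2 / 3) * b ^ 2) * (1 / (1 + d)) := by ring
      _ ≤ _ := by
        apply mul_le_mul_of_nonneg_right _ (by positivity)
        linarith
  have h8 : 1 ≤ (2 / 3) * (s / b) + (1 / 3) * (b ^ 2 / d) := by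
    rw [← hs]
    have hx : 0 < s / b := by positivity
    have h9 : b ^ 2 / s ^ 2 = 1 / (s / b) ^ 2 := by field_simp
    rw [h9]
    set x := s / b
    have h10 : (2 / 3) * x + (1 / 3) * (1 / x ^ 2) - 1
        = (x - 1) ^ 2 * (2 * x + 1) / (3 * x ^ 2) := by
      field_simp; ring
    have h11 : 0 ≤ (x - 1) ^ 2 * (2 * x + 1) / (3 * x ^ 2) := by positivity
    linarith
  linarith

lemma card_le_three {F : SimpleGraph V} {n : ℕ} {a b : ℝ} (hF : Failing F 3 n)
    (hb : 1 ≤ b) (hab : a = b ^ 3)
    (ha : ∀ S : Finset V, F.IsIndepSet (S : Set V) → (S.card : ℝ) ≤ a) :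
    (Fintype.card V : ℝ) ≤ 5 * b ^ 5 := by
  have hdeg : ∀ c, ((nb F c).card : ℝ) ≤ a := by
    intro c
    apply ha
    intro y hy z hz _ hadj
    exact triangle_free hF (mem_nb.1 hy) hadj (mem_nb.1 hz)
  have h1 := caro_wei ha
  have h2 := second_bound (fun x y z => triangle_free hF) ha
  have h3 : ∀ v : V, 1 ≤ (8 / 3) * b ^ 2 *
      (((nb F v).card : ℝ) / (1 + (nb F v).card + (nb2 F v).card))
      + ((2 / 3) * b ^ 2 + 1) * (1 / (1 + (nb F v).card)) := by
    intro v
    rcases Nat.eq_zero_or_pos (nb F v).card with h0 | h0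
    · rw [h0]
      have : (0 : ℝ) ≤ b ^ 2 := by positivity
      simp
      exact this
    · exact pointwise hb hab (by exact_mod_cast h0) (hdeg v) (by positivity)
        (nb2_bound hF ha v)
  have h4 : (Fintype.card V : ℝ) ≤ ∑ v : V, ((8 / 3) * b ^ 2 *
      (((nb F v).card : ℝ) / (1 + (nb F v).card + (nb2 F v).card))
      + ((2 / 3) * b ^ 2 + 1) * (1 / (1 + (nb F v).card))) := by
    calc (Fintype.card V : ℝ) = ∑ _v : V, (1 : ℝ) := by simp
      _ ≤ _ := Finset.sum_le_sum (fun v _ => h3 v)
  rw [Finset.sum_add_distrib, ← Finset.mul_sum, ← Finset.mul_sum] at h4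
  have h5 : (8 / 3) * b ^ 2 * ∑ v : V,
      (((nb F v).card : ℝ) / (1 + (nb F v).card + (nb2 F v).card)) ≤ (8 / 3) * b ^ 2 * a :=
    mul_le_mul_of_nonneg_left h2 (by positivity)
  have h6 : ((2 / 3) * b ^ 2 + 1) * ∑ v : V, ((1 : ℝ) / (1 + (nb F v).card))
      ≤ ((2 / 3) * b ^ 2 + 1) * a := mul_le_mul_of_nonneg_left h1 (by positivity)
  have h7 : (8 / 3) * b ^ 2 * a + ((2 / 3) * b ^ 2 + 1) * a ≤ 5 * b ^ 5 := by
    rw [hab]
    have h8 : b ^ 3 ≤ b ^ 5 := pow_le_pow_right₀ hb (by norm_num)
    nlinarith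
  linarith

/-- neighbourhoods of a failing graph for `(m+1,n)` are failing for `(m,n)` -/
lemma failing_induce {F : SimpleGraph V} {m n : ℕ} (hF : Failing F (m + 1) n) (x : V) :
    Failing (F.induce (nb F x : Set V)) m n := by
  refine ⟨?_, ?_⟩
  · intro X hX
    set X' : Finset V := X.map (Function.Embedding.subtype _) with hX'
    have hxX' : x ∉ X' := by
      rw [hX']
      simp only [mem_map, Function.Embedding.subtype_apply, Subtype.exists, not_exists, not_and]
      rintro y hy _ rfl
      exact (mem_nb.1 hy).ne rfl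
    have hadjX' : ∀ y ∈ X', F.Adj x y := by
      intro y hy
      rw [hX'] at hy
      simp only [mem_map, Function.Embedding.subtype_apply, Subtype.exists] at hy
      obtain ⟨z, hz, _, rfl⟩ := hy
      exact mem_nb.1 hz
    have hmin : MinDominating Fᶜ (insert x X') := by
      refine ⟨?_, ?_⟩
      · intro v hv
        rw [mem_insert, not_or] at hv
        by_cases hvx : F.Adj x v
        · have hv' : (⟨v, mem_nb.2 hvx⟩ : (nb F x : Set V)) ∉ X := by
            intro h
            apply hv.2
            rw [hX']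
            exact mem_map.2 ⟨_, h, rfl⟩
          obtain ⟨y, hy, hadj⟩ := hX.1 _ hv'
          refine ⟨y, mem_insert_of_mem ?_, ?_⟩
          · rw [hX']
            exact mem_map.2 ⟨_, hy, rfl⟩
          · rw [SimpleGraph.compl_adj] at hadj ⊢
            refine ⟨fun h => hadj.1 (Subtype.ext h), fun h => hadj.2 ?_⟩
            exact h
        · refine ⟨x, mem_insert_self _ _, ?_⟩
          rw [SimpleGraph.compl_adj]
          exact ⟨fun h => hv.1 h.symm, hvx⟩
      · intro Y hY hdom
        by_cases hxY : x ∈ Y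
        · -- the rest dominates the neighbourhood
          set Z : Finset (nb F x : Set V) := X.filter (fun y => (y : V) ∈ Y) with hZ
          have hZX : Z ⊂ X := by
            rw [Finset.ssubset_iff_of_subset (Finset.filter_subset _ _)]
            obtain ⟨k, hk, hkY⟩ := Finset.exists_of_ssubset hY
            rw [mem_insert] at hk
            rcases hk with rfl | hk
            · exact absurd hxY hkY
            · rw [hX'] at hk
              obtain ⟨k', hk', rfl⟩ := mem_map.1 hk
              exact ⟨k', hk', fun h => hkY (mem_filter.1 h).2⟩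
          apply hX.2 Z hZX
          intro v hv
          by_cases hvY : (v : V) ∈ Y
          · -- then `v ∈ X` and so `v ∈ Z`
            exfalso
            apply hv
            rw [hZ, mem_filter]
            refine ⟨?_, hvY⟩
            have h1 := hY.1 hvY
            rw [mem_insert] at h1
            rcases h1 with h1 | h1
            · exact absurd h1.symm (mem_nb.1 v.2).ne
            · rw [hX'] at h1
              obtain ⟨v', hv', h2⟩ := mem_map.1 h1
              have : v' = v := Subtype.ext h2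
              rwa [← this]
          · obtain ⟨y, hy, hadj⟩ := hdom v hvY
            have h1 := hY.1 hy
            rw [mem_insert] at h1
            rw [SimpleGraph.compl_adj] at hadj
            rcases h1 with rfl | h1
            · exact absurd (mem_nb.1 v.2) hadj.2
            · rw [hX'] at h1
              obtain ⟨y', hy', h2⟩ := mem_map.1 h1
              have h2' : (y' : V) = y := h2
              refine ⟨y', ?_, ?_⟩
              · rw [hZ, mem_filter]
                exact ⟨hy', by rw [h2']; exact hy⟩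
              · rw [SimpleGraph.compl_adj]
                refine ⟨fun h => hadj.1 (by rw [← h2', h]), fun h => hadj.2 ?_⟩
                rw [← h2']
                exact h
        · obtain ⟨y, hy, hadj⟩ := hdom x hxY
          have h1 := hY.1 hy
          rw [mem_insert] at h1
          rw [SimpleGraph.compl_adj] at hadj
          rcases h1 with h1 | h1
          · exact hadj.1 h1
          · exact hadj.2 (hadjX' y h1).symm
    have h1 := hF.1 _ hmin
    rw [Finset.card_insert_of_notMem hxX', hX', Finset.card_map] at h1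
    omega
  · intro S hS
    have h1 : F.IsIndepSet ((S.map (Function.Embedding.subtype _) : Finset V) : Set V) := by
      intro a ha b hb hab hadj
      rw [mem_coe] at ha hb
      obtain ⟨a', ha', rfl⟩ := mem_map.1 ha
      obtain ⟨b', hb', rfl⟩ := mem_map.1 hb
      exact hS (mem_coe.2 ha') (mem_coe.2 hb') (fun h => hab (by rw [h])) hadj
    have h2 := hF.2 _ h1
    rwa [Finset.card_map] at h2

end Pool.Agent.helper56.Irr
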